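import Pool.Agent.U483.KP.Defs

/-!
# Motives of weight two and the integral Mumford-Tate conjecture: definitions
-/

set_option autoImplicit false

open CategoryTheory AlgebraicGeometry Pool.Agent.Y116.UV Pool.Agent.U483.KM Pool.Agent.U483.GU
  Pool.Agent.U483.KP

namespace Pool.Agent.U483.KI

universe w x

variable {k : Type} [Field k] {𝓜 : Type w} [Category.{x} 𝓜] [Abelian 𝓜] [Linear ℚ 𝓜]

/-- The subgroup of `K_0(Var_k)` generated by the classes of the separated schemes `Y` of finite type (open,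
singular) for which all pieces `gr^W_2 h^n_c(Y)` of weight two are in `P`. -/
def weightTwo (H : CompactCoh.{w, x} k 𝓜) (P : 𝓜 → Prop) : AddSubgroup (K0 k) :=
  AddSubgroup.closure {c | ∃ Y : Var k, (∀ n : ℤ, P (H.h n 2 Y.1)) ∧ c = cls Y}

/-- `A` is in the class generated by `h^2(X)` and the class `𝒯` under direct sums and direct factors. -/
def Below (H : CompactCoh.{w, x} k 𝓜) (𝒯 : 𝓜 → Prop) (X : Var k) (A : 𝓜) : Prop :=
  ∀ P : 𝓜 → Prop, IsThick P → (∀ C, 𝒯 C → P C) → P (H.h 2 2 X.1) → P A

/-- `IMT X` depends only on the class generated by `h^2(X)` and `𝒯`: if each of `h^2(X)` and `h^2(X')` is a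
direct factor of a sum of copies of the other one and of a member of `𝒯`, then
`IMT X` and `IMT X'` are equivalent. Here `𝒯` is the class of the motives `C` such that `C(1)` has finite
Galois image (direct factors of the motives `h^0(Z)(-1)`, `Z` finite over `k`). -/
structure IsIntegral (H : CompactCoh.{w, x} k 𝓜) (𝒯 : 𝓜 → Prop) (IMT : Var k → Prop) : Prop where
  same : ∀ X X' : Var k, SmoothProjective X.1 → SmoothProjective X'.1 →
    Below H 𝒯 X (H.h 2 2 X'.1) → Below H 𝒯 X' (H.h 2 2 X.1) → (IMT X ↔ IMT X')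

/-- (1) If nonzero multiples of the classes of `X` and of `X'` are generated by classes of schemes with pieces
of weight two in the class generated by `h^2` of the other one and `𝒯`, then `IMT X` and `IMT X'` are equivalent. -/
def Criterion (H : CompactCoh.{w, x} k 𝓜) (𝒯 : 𝓜 → Prop) (IMT : Var k → Prop) : Prop :=
  ∀ X X' : Var k, SmoothProjective X.1 → SmoothProjective X'.1 → ∀ n : ℤ, n ≠ 0 →
    n • cls X ∈ weightTwo H (Below H 𝒯 X') → n • cls X' ∈ weightTwo H (Below H 𝒯 X) →
    (IMT X ↔ IMT X')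

/-- (2) If the classes of `X` and `X'` are congruent (up to a factor `n`) modulo the classes of schemes with pieces
of weight two in `𝒯` then `IMT X` and `IMT X'` are equivalent. -/
def Congruence (H : CompactCoh.{w, x} k 𝓜) (𝒯 : 𝓜 → Prop) (IMT : Var k → Prop) : Prop :=
  ∀ X X' : Var k, SmoothProjective X.1 → SmoothProjective X'.1 → ∀ n : ℤ, n ≠ 0 →
    n • cls X - n • cls X' ∈ weightTwo H 𝒯 → (IMT X ↔ IMT X')

/-- `IMT X` is known for all smooth projective `X` with `h^2(X)` in `𝒜`. -/
def Suffices (H : CompactCoh.{w, x} k 𝓜) (𝒜 : 𝓜 → Prop) (IMT : Var k → Prop) : Prop :=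
  ∀ X : Var k, SmoothProjective X.1 → 𝒜 (H.h 2 2 X.1) → IMT X

/-- `IMT X` for the smooth projective `X` for which a nonzero multiple of the class is in `W`. -/
def HoldsOn (W : AddSubgroup (K0 k)) (IMT : Var k → Prop) : Prop :=
  ∀ X : Var k, SmoothProjective X.1 → ∀ n : ℤ, n ≠ 0 → n • cls X ∈ W → IMT X

/-- The subgroup of `K_0(Var_k)` generated by the classes of the schemes built from `B` (and dimension `≤ D`). -/
def builtGroup (k : Type) [Field k] (B : Sch k → Prop) (D : ℕ) : AddSubgroup (K0 k) :=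
  AddSubgroup.closure {c | ∃ Y : Var k, Built k B D Y.1 ∧ c = cls Y}

/-- All pieces of the members of `B` and of the schemes of dimension `≤ D` are in `𝒜`. -/
def Pieces (H : CompactCoh.{w, x} k 𝓜) (𝒜 : 𝓜 → Prop) (B : Sch k → Prop) (D : ℕ) : Prop :=
  (∀ Y : Sch k, FT True Y → B Y → H.In 𝒜 Y) ∧
    ∀ Y : Sch k, FT True Y → topologicalKrullDim Y.left ≤ D → H.In 𝒜 Y

end Pool.Agent.U483.KI
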