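import Pool.Agent.U483.KI.Defs
import Pool.Agent.U483.KP.Iso

/-!
# Motives of weight two and the integral Mumford-Tate conjecture
-/

set_option autoImplicit false

open CategoryTheory CategoryTheory.Limits AlgebraicGeometry Module Pool.Agent.Y116.UV
  Pool.Agent.U483.KM Pool.Agent.U483.GU Pool.Agent.U483.KP

namespace Pool.Agent.U483.KI

universe w x

variable {k : Type} [Field k] {𝓜 : Type w} [Category.{x} 𝓜] [Abelian 𝓜] [Linear ℚ 𝓜]
  (H : CompactCoh.{w, x} k 𝓜)

/-- `piece_of_mem` for a multiple of the class. -/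
theorem piece_of_smul_mem {P : 𝓜 → Prop} (hP : IsThick P) {X : Var k} (hX : SmoothProjective X.1)
    {n : ℤ} (hn : n ≠ 0) (h : n • cls X ∈ weightTwo H P) : P (H.h 2 2 X.1) := by
  by_contra hbad
  obtain ⟨S, s, r, hsr, hS, hS'⟩ := exists_bad H.semisimple (hP.good H.semisimple) _
    (H.h 2 2 X.1) le_rfl hbad
  have hle : weightTwo H P ≤ (mu H 2 S).ker := by
    rw [weightTwo, AddSubgroup.closure_le]
    rintro c ⟨Y, hY, rfl⟩
    change mu H 2 S (cls Y) = 0
    rw [mu_cls, eul]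
    refine finsum_eq_zero_of_forall_eq_zero fun m => ?_
    have hsub : Subsingleton (S ⟶ H.h m 2 Y.1) :=
      ⟨fun f g => by rw [hS' _ (hY m) f, hS' _ (hY m) g]⟩
    rw [finrank_zero_of_subsingleton, Nat.cast_zero, mul_zero]
  have h0 : mu H 2 S (n • cls X) = 0 := hle h
  rw [map_zsmul, smul_eq_mul, mul_eq_zero, mu_pure H hX] at h0
  have h1 : finrank ℚ (S ⟶ H.h 2 2 X.1) = 0 := by
    rcases mul_eq_zero.1 (h0.resolve_left hn) with h2 | h2
    · exact absurd h2 (Units.ne_zero _)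
    · exact_mod_cast h2
  have := H.semisimple.finite S (H.h 2 2 X.1)
  have h2 : Subsingleton (S ⟶ H.h 2 2 X.1) := finrank_zero_iff.1 h1
  have h3 : 𝟙 S = 0 := by rw [← hsr, Subsingleton.elim s 0, zero_comp]
  exact hS (hP.zero S ((IsZero.iff_id_eq_zero S).2 h3))

variable {𝒯 : 𝓜 → Prop}

lemma thick_below (X : Var k) : IsThick (Below H 𝒯 X) where
  zero A h P hP _ _ := hP.zero A h
  retract s r h hB P hP h1 h2 := hP.retract s r h (hB P hP h1 h2)
  sum A B hA hB P hP h1 h2 := hP.sum A B (hA P hP h1 h2) (hB P hP h1 h2)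

lemma weightTwo_mono {P Q : 𝓜 → Prop} (h : ∀ A, P A → Q A) : weightTwo H P ≤ weightTwo H Q := by
  refine AddSubgroup.closure_mono ?_
  rintro c ⟨Y, hY, rfl⟩
  exact ⟨Y, fun n => h _ (hY n), rfl⟩

lemma mem_below {X : Var k} (hX : SmoothProjective X.1) : cls X ∈ weightTwo H (Below H 𝒯 X) := by
  refine AddSubgroup.subset_closure ⟨X, fun n => ?_, rfl⟩
  by_cases hn : n = 2
  · subst hn
    exact fun P _ _ h => h
  · exact (thick_below H X).zero _ (H.pure X.1 hX n 2 hn)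

variable {H} {IMT : Var k → Prop}

theorem imt_iff (hI : IsIntegral H 𝒯 IMT) {X X' : Var k} (hX : SmoothProjective X.1)
    (hX' : SmoothProjective X'.1) {n : ℤ} (hn : n ≠ 0)
    (h : n • cls X ∈ weightTwo H (Below H 𝒯 X')) (h' : n • cls X' ∈ weightTwo H (Below H 𝒯 X)) :
    IMT X ↔ IMT X' :=
  hI.same X X' hX hX' (piece_of_smul_mem H (thick_below H X) hX' hn h')
    (piece_of_smul_mem H (thick_below H X') hX hn h)

theorem imt_mod (hI : IsIntegral H 𝒯 IMT) {X X' : Var k} (hX : SmoothProjective X.1)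
    (hX' : SmoothProjective X'.1) {n : ℤ} (hn : n ≠ 0)
    (h : n • cls X - n • cls X' ∈ weightTwo H 𝒯) : IMT X ↔ IMT X' := by
  have hle : ∀ Z : Var k, weightTwo H 𝒯 ≤ weightTwo H (Below H 𝒯 Z) := fun Z =>
    weightTwo_mono H fun A hA P _ hT _ => hT A hA
  refine imt_iff hI hX hX' hn ?_ ?_
  · have h1 := add_mem (hle X' h) (zsmul_mem (mem_below H (𝒯 := 𝒯) hX') n)
    rwa [sub_add_cancel] at h1
  · have h1 := sub_mem (zsmul_mem (mem_below H (𝒯 := 𝒯) hX) n) (hle X h)
    rwa [sub_sub_cancel] at h1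

end Pool.Agent.U483.KI
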